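import Pool.Agent.Y230.TH.TopFin
import Pool.Agent.TH187.SA.Classes

set_option autoImplicit false

/-! # The classes of topological zeta functions closed under products of powers of forms -/

namespace Pool.Agent.R852.TP

open MvPolynomial Pool.Agent.W574.SM Pool.Agent.W574.CN Pool.Agent.W574.RO Pool.Agent.Y229
open Pool.Agent.W574.MO Pool.Agent.W425.SM Pool.Agent.W425.SV Pool.Agent.W422.GC
open Pool.Agent.W425.ND Pool.Agent.Y230.TH Pool.Agent.TH187.SA
open Pool.Agent.Y228.AT (AllGlobal)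
open Pool.Agent.Y230.RS (topZeta)

/-- The ideal `h ∏_t (f_{t, j})_j ^ a_t`, generated by the `h ∏_t ∏_{i < a_t} f_{t, J(t, i)}`. -/
@[reducible] noncomputable def genFam {σ τ : Type} [Fintype τ] [DecidableEq τ] {κ : τ → Type}
    [∀ t, Fintype (κ t)] (a : τ → ℕ) (h : MvPolynomial σ ℂ)
    (f : (t : τ) → κ t → MvPolynomial σ ℂ) : Fam :=
  ⟨σ, (q : Σ t, Fin (a t)) → κ q.1, fun J => h * ∏ q, f q.1 (J q)⟩

/-- The hypersurface `h(x) ∏_t (∑_j y_{t, j} f_{t, j}(x)) ^ a_t = 0`, with further variables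
`y_{t, j}`. -/
@[reducible] noncomputable def formFam {σ τ : Type} [Fintype τ] {κ : τ → Type}
    [∀ t, Fintype (κ t)] (a : τ → ℕ) (h : MvPolynomial σ ℂ)
    (f : (t : τ) → κ t → MvPolynomial σ ℂ) : Fam :=
  ⟨(Σ t, κ t) ⊕ σ, Fin 1, fun _ => rename Sum.inr h *
    ∏ t, (∑ j, X (Sum.inl ⟨t, j⟩) * rename Sum.inr (f t j)) ^ a t⟩

/-- `StrongAt A Z`: the ideals in `AllGlobal`, and the products of linear ideals. -/
inductive StrongAt : Fam → RatFunc ℂ → Prop
  /-- the ideals in `AllGlobal` -/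
  | all (A : Fam) (Z : RatFunc ℂ) (h : AllGlobal A Z) : StrongAt A Z
  /-- the product `∏_s I(L_s) ^ e_s`, where `L_s = zeros (c s)` is a proper linear subspace, with
  `topZeta` for the wonderful model of a building set `G` of Rees flats of the arrangement, with the
  Euler characteristics `χ` of the strata -/
  | arr (σ S I : Type) [Fintype σ] [DecidableEq σ] [Fintype S] [DecidableEq S] [Fintype I]
      [DecidableEq I] (κ : S → Type) [∀ s, Fintype (κ s)] (c : (s : S) → κ s → σ → ℂ)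
      (hc : ∀ s, ∃ j, c s j ≠ 0) (e : S → ℕ) (G : I → Submodule ℂ (σ → ℂ))
      (hG : ∀ i, IsReesFlat (fun s => zeros (c s)) (fun s => e s ≠ 0) (G i)) (χ : Finset I → ℤ) :
      StrongAt ⟨σ, _, arrGen c e⟩ (topZeta (fun i => mult (fun s => zeros (c s)) e (G i))
        (fun i => Fintype.card σ - Module.finrank ℂ (G i) - 1) χ)

/-- `WeakAtP A Z`: the ideals in `StrongAt` or `WeakGlobal`. -/
inductive WeakAtP : Fam → RatFunc ℂ → Prop
  /-- the ideals in `StrongAt` -/
  | strong (A : Fam) (Z : RatFunc ℂ) (h : StrongAt A Z) : WeakAtP A Z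
  /-- the ideals in `WeakGlobal` -/
  | weak (A : Fam) (Z : RatFunc ℂ) (h : WeakGlobal A Z) : WeakAtP A Z

/-- Two classes of ideals, given by generators, together with their topological zeta functions:
`TPw At HAt false A Z` for ideals and `TPw At HAt true A Z` for principal ideals (hypersurfaces). They
are the smallest classes with the following properties. -/
inductive TPw (At HAt : Fam → RatFunc ℂ → Prop) : Bool → Fam → RatFunc ℂ → Prop
  /-- the ideals of the given class -/
  | atom (A : Fam) (Z : RatFunc ℂ) (h : At A Z) : TPw At HAt false A Z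
  /-- the hypersurfaces of the given class -/
  | hatom (A : Fam) (Z : RatFunc ℂ) (h : HAt A Z) : TPw At HAt true A Z
  /-- a hypersurface is a principal ideal -/
  | hyp (A : Fam) (Z : RatFunc ℂ) (h : TPw At HAt true A Z) : TPw At HAt false A Z
  /-- the powers of a hypersurface are principal ideals; if `p(s) / q(s)` is the topological zeta
  function of `g`, then `p(k s) / q(k s)` is the one of `g ^ k` -/
  | pow (σ : Type) (g : MvPolynomial σ ℂ) (k : ℕ) (hk : k ≠ 0) (p q : Polynomial ℂ) (hq : q ≠ 0)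
      (h : TPw At HAt true ⟨σ, Fin 1, fun _ => g⟩
        (algebraMap (Polynomial ℂ) (RatFunc ℂ) p / algebraMap (Polynomial ℂ) (RatFunc ℂ) q)) :
      TPw At HAt false ⟨σ, Fin 1, fun _ => g ^ k⟩
        (algebraMap (Polynomial ℂ) (RatFunc ℂ) (p.comp (Polynomial.C (k : ℂ) * Polynomial.X)) /
          algebraMap (Polynomial ℂ) (RatFunc ℂ) (q.comp (Polynomial.C (k : ℂ) * Polynomial.X)))
  /-- the sum of two ideals in disjoint sets of variables: if `1 - Z = s ∫ V(t) exp(- s t) dt` and
  `1 - W = s ∫ W'(t) exp(- s t) dt`, where no constant function occurs in the exponential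
  polynomials `V`, `W'` (given by `v` and `w`), then the topological zeta function of the sum is
  `1 - s ∫ V(t) W'(t) exp(- s t) dt` -/
  | sum (A B : Fam) (Z W : RatFunc ℂ) (v w : ℂ × ℕ →₀ ℂ) (hv : 1 - Z = RatFunc.X * lap v)
      (hw : 1 - W = RatFunc.X * lap w) (hv0 : ∀ p ∈ v.support, p.1 ≠ 0)
      (hw0 : ∀ p ∈ w.support, p.1 ≠ 0) (hA : TPw At HAt false A Z) (hB : TPw At HAt false B W) :
      TPw At HAt false (A.sum B) (1 - RatFunc.X * lap2 v w)
  /-- the product of two ideals, or of two polynomials, in disjoint sets of variables -/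
  | mul (c : Bool) (A B : Fam) (Z W : RatFunc ℂ) (hA : TPw At HAt c A Z) (hB : TPw At HAt c B W) :
      TPw At HAt c (A.mul B) (Z * W)
  /-- the polynomial `∑ y_j f_j(x)` has the topological zeta function `Z / (s + 1)` -/
  | univ (A : Fam) (Z : RatFunc ℂ) (hA : TPw At HAt false A Z) :
      TPw At HAt true (univFam A) (Z * (RatFunc.X + 1)⁻¹)
  /-- the polynomial `h(x) ∏_t (∑_j y_{t, j} f_{t, j}(x)) ^ a_t` has the topological zeta function
  `Z ∏_t 1 / (a_t s + 1)`, if `Z` is the one of the ideal `h ∏_t (f_{t, j})_j ^ a_t` -/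
  | form (σ τ : Type) [Fintype τ] [DecidableEq τ] [Nonempty τ] (κ : τ → Type)
      [∀ t, Fintype (κ t)] (a : τ → ℕ) (ha : ∀ t, 0 < a t) (h : MvPolynomial σ ℂ)
      (f : (t : τ) → κ t → MvPolynomial σ ℂ) (Z : RatFunc ℂ)
      (hA : TPw At HAt false (genFam a h f) Z) :
      TPw At HAt true (formFam a h f) (Z * ∏ t, fac (a t) 1)
  /-- the Thom-Sebastiani sum `∑ y_j f_j(x) + g(z)`: if `1 - Z = s ∫ V(t) exp(- s t) dt` and
  `1 - (s + 1) W = s ∫ U(t) exp(- s t) dt - c s`, where no constant function occurs in the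
  exponential polynomials `V`, `U` (given by `v` and `w`), then
  `1 - (s + 1) Z_F = s ∫ V(t) U(t) exp(- s t) dt - c V(0) s` -/
  | ts (A : Fam) (τ : Type) (g : MvPolynomial τ ℂ) (Z W : RatFunc ℂ) (v w : ℂ × ℕ →₀ ℂ) (c : ℂ)
      (hv : 1 - Z = RatFunc.X * lap v)
      (hw : 1 - (RatFunc.X + 1) * W = RatFunc.X * (lap w - RatFunc.C c))
      (hv0 : ∀ p ∈ v.support, p.1 ≠ 0) (hw0 : ∀ p ∈ w.support, p.1 ≠ 0)
      (hA : TPw At HAt false A Z) (hg : TPw At HAt true ⟨τ, Fin 1, fun _ => g⟩ W) :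
      TPw At HAt true (tsFam A τ g)
        ((1 - RatFunc.X * (lap2 v w - RatFunc.C (c * val0 v))) * (RatFunc.X + 1)⁻¹)
  /-- variables which do not occur may be dropped -/
  | drop (σ κ : Type) (g : MvPolynomial σ ℂ) (Z : RatFunc ℂ)
      (h : TPw At HAt true ⟨σ ⊕ κ, Fin 1, fun _ => rename Sum.inl g⟩ Z) :
      TPw At HAt true ⟨σ, Fin 1, fun _ => g⟩ Z
  /-- the variables and the generators may be indexed differently -/
  | equiv (c : Bool) (A B : Fam) (i : A.σ ≃ B.σ) (k : A.ι ≃ B.ι)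
      (h : ∀ j, B.f (k j) = rename i (A.f j)) (Z : RatFunc ℂ) (hA : TPw At HAt c A Z) :
      TPw At HAt c B Z

end Pool.Agent.R852.TP
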