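import Pool.Agent.R852.PP.Pow

set_option autoImplicit false
set_option linter.unusedSectionVars false
set_option linter.unusedVariables false

/-! # The functional equations of `g ^ k` and of `g`, with a shift -/

namespace Pool.Agent.R852.TP

open MvPolynomial Pool.Agent.W574.SM Pool.Agent.W574.HS Pool.Agent.W574.RO
open Pool.Agent.H628R4.TP (IsBFunction weylS)
open Pool.Agent.R852.PP

variable {σ : Type}

/-- operators with polynomial weights -/
theorem isB_of_weights (g : MvPolynomial σ ℂ) (c : Polynomial ℂ) (M : Finset ℕ)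
    (w : ℕ → Polynomial ℂ) (Q : ℕ → Module.End ℂ (MvPolynomial σ ℂ)) (hQ : ∀ m, Q m ∈ weyl σ)
    (h : ∀ n : ℕ, c.eval (n : ℂ) • g ^ n = ∑ m ∈ M, ((w m).eval (n : ℂ)) • Q m (g ^ (n + 1))) :
    IsBFunction g c := by
  classical
  refine ⟨∑ m ∈ M, ∑ l ∈ Finset.range ((w m).natDegree + 1),
    Finsupp.single l ⟨(w m).coeff l • Q m, Subalgebra.smul_mem _ (hQ m) _⟩, fun s => ?_⟩
  have h0 : ∀ a : ℕ, ((s : ℂ) ^ a) • (((0 : weylS σ) : Module.End ℂ (MvPolynomial σ ℂ))
      (g ^ (s + 1))) = 0 := by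
    intro a
    rw [ZeroMemClass.coe_zero, LinearMap.zero_apply, smul_zero]
  have hadd : ∀ (a : ℕ) (A B : weylS σ), ((s : ℂ) ^ a) • (((A + B : weylS σ) :
      Module.End ℂ (MvPolynomial σ ℂ)) (g ^ (s + 1))) =
      ((s : ℂ) ^ a) • ((A : Module.End ℂ (MvPolynomial σ ℂ)) (g ^ (s + 1))) +
      ((s : ℂ) ^ a) • ((B : Module.End ℂ (MvPolynomial σ ℂ)) (g ^ (s + 1))) := by
    intro a A B
    rw [← smul_add]
    rfl
  rw [← Finsupp.sum_finsetSum_index]
  rotate_left
  · exact h0
  · exact hadd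
  rw [C_mul', h s]
  refine Finset.sum_congr rfl fun m _ => ?_
  rw [← Finsupp.sum_finsetSum_index]
  rotate_left
  · exact h0
  · exact hadd
  rw [Polynomial.eval_eq_sum_range, Finset.sum_smul]
  refine Finset.sum_congr rfl fun l _ => ?_
  rw [Finsupp.sum_single_index]
  rotate_left
  · exact h0 l
  change _ = ((s : ℂ) ^ l) • ((w m).coeff l • Q m (g ^ (s + 1)))
  rw [smul_smul, mul_comm]

theorem hmul (q : MvPolynomial σ ℂ) : LinearMap.mulLeft ℂ q ∈ weyl σ := by
  classical
  induction q using MvPolynomial.induction_on with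
  | C c =>
    have : LinearMap.mulLeft ℂ (C c : MvPolynomial σ ℂ) = algebraMap ℂ _ c := by
      ext1 i
      refine LinearMap.ext fun x => ?_
      simp [C_mul', Algebra.algebraMap_eq_smul_one]
    rw [this]
    exact Subalgebra.algebraMap_mem _ _
  | add p q hp hq =>
    have : LinearMap.mulLeft ℂ (p + q) = LinearMap.mulLeft ℂ p + LinearMap.mulLeft ℂ q := by
      refine LinearMap.ext fun x => ?_
      simp [add_mul]
    rw [this]
    exact Subalgebra.add_mem _ hp hq
  | mul_X p i hp =>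
    have : LinearMap.mulLeft ℂ (p * X i) = LinearMap.mulLeft ℂ p * LinearMap.mulLeft ℂ (X i) := by
      refine LinearMap.ext fun x => ?_
      simp
    rw [this]
    exact Subalgebra.mul_mem _ hp (Algebra.subset_adjoin (Or.inl ⟨i, rfl⟩))

/-- **The functional equations of `g ^ k` give functional equations of `g`.** -/
theorem isB_shift (g : MvPolynomial σ ℂ) (hg : g ≠ 0) (k j : ℕ) (hj : j < k) (b : Polynomial ℂ)
    (hb : IsBFunction (g ^ k) b) :
    IsBFunction g (b.comp (Polynomial.C ((k : ℂ)⁻¹) * (Polynomial.X - Polynomial.C (j : ℂ)))) := by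
  classical
  obtain ⟨P, hP⟩ := hb
  have hk : k ≠ 0 := by omega
  have hkC : (k : ℂ) ≠ 0 := by exact_mod_cast hk
  set w0 : Polynomial ℂ := Polynomial.C ((k : ℂ)⁻¹) * (Polynomial.X - Polynomial.C (j : ℂ))
    with hw0
  set w : ℕ → Polynomial ℂ := fun m => w0 ^ m with hw
  set Q : ℕ → Module.End ℂ (MvPolynomial σ ℂ) := fun m =>
    LinearMap.mulLeft ℂ (g ^ j) * ((P m : Module.End ℂ (MvPolynomial σ ℂ)) *
      LinearMap.mulLeft ℂ (g ^ (k - 1 - j))) with hQdef
  have hQ : ∀ m, Q m ∈ weyl σ := fun m =>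
    Subalgebra.mul_mem _ (hmul _) (Subalgebra.mul_mem _ (P m).2 (hmul _))
  set c : Polynomial ℂ := b.comp w0 with hc
  set u : ℕ → MvPolynomial σ ℂ := fun n =>
    (∑ m ∈ P.support, ((w m).eval (n : ℂ)) • Q m (g ^ (n + 1))) +
      (-1 : ℂ) • (c.eval (n : ℂ) • g ^ n) with hu
  have hfrg : Fr g (fun n => g ^ (n + 1)) := ⟨0, Polynomial.C g, fun n => by
    rw [Polynomial.eval_C]; ring⟩
  have hfr0 : Fr g (fun n => g ^ n) := ⟨0, 1, fun n => by
    rw [Polynomial.eval_one]; ring⟩
  have hfr : Fr g u := by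
    refine fr_add (fr_sum _ _ _ fun m _ => ?_) ?_
    · exact fr_pol (fr_weyl (Q m) (hQ m) _ hfrg) (w m)
    · have h1 := fr_pol (fr_pol hfr0 c) (Polynomial.C (-1))
      simp only [Polynomial.eval_C] at h1
      exact h1
  have hev : ∀ n : ℕ, w0.eval ((k * n + j : ℕ) : ℂ) = n := by
    intro n
    rw [hw0, Polynomial.eval_mul, Polynomial.eval_sub, Polynomial.eval_C, Polynomial.eval_C,
      Polynomial.eval_X]
    push_cast
    rw [add_sub_cancel_right, inv_mul_cancel_left₀ hkC]
  have hzero : ∀ n : ℕ, u (k * n + j) = 0 := by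
    intro n
    have h1 := hP n
    have h2 : c.eval ((k * n + j : ℕ) : ℂ) = b.eval (n : ℂ) := by
      rw [hc, Polynomial.eval_comp, hev]
    have h3 : ∀ m : ℕ, ((w m).eval ((k * n + j : ℕ) : ℂ)) • Q m (g ^ (k * n + j + 1)) =
        g ^ j * (((n : ℂ) ^ m) • (P m : Module.End ℂ (MvPolynomial σ ℂ)) ((g ^ k) ^ (n + 1))) := by
      intro m
      have h4 : g ^ (k - 1 - j) * g ^ (k * n + j + 1) = (g ^ k) ^ (n + 1) := by
        rw [← pow_add, ← pow_mul]
        congr 1
        rw [mul_add, mul_one]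
        omega
      rw [hw]
      beta_reduce
      rw [Polynomial.eval_pow, hev, hQdef, mul_smul_comm]
      change _ • (g ^ j * (P m : Module.End ℂ (MvPolynomial σ ℂ))
        (g ^ (k - 1 - j) * g ^ (k * n + j + 1))) = _
      rw [h4]
    rw [hu]
    beta_reduce
    rw [C_mul', Finsupp.sum] at h1
    rw [Finset.sum_congr rfl fun m _ => h3 m, ← Finset.mul_sum, ← h1, h2, neg_one_smul,
      mul_smul_comm, ← pow_mul, ← pow_add, add_comm j, add_neg_cancel]
  obtain ⟨M, ρ, e⟩ := hfr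
  have hρ : ρ = 0 := by
    refine Polynomial.eq_zero_of_infinite_isRoot ρ ?_
    have hinj : Function.Injective (fun n : ℕ => ((k * n + j : ℕ) : MvPolynomial σ ℂ)) := by
      intro n n' h
      have h1 : k * n + j = k * n' + j := Nat.cast_injective (R := MvPolynomial σ ℂ) h
      exact Nat.eq_of_mul_eq_mul_left (Nat.pos_of_ne_zero hk) (by omega)
    refine (Set.infinite_range_of_injective hinj).mono ?_
    rintro _ ⟨n, rfl⟩
    have h1 := e (k * n + j)
    rw [hzero, mul_zero] at h1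
    exact (mul_eq_zero.1 h1.symm).resolve_right (pow_ne_zero _ hg)
  have hall : ∀ n, u n = 0 := by
    intro n
    have h1 := e n
    rw [hρ, Polynomial.eval_zero, zero_mul] at h1
    exact (mul_eq_zero.1 h1).resolve_left (pow_ne_zero _ hg)
  refine isB_of_weights g c P.support w Q hQ fun n => ?_
  have h1 := hall n
  rw [hu] at h1
  beta_reduce at h1
  rw [neg_one_smul, ← sub_eq_add_neg, sub_eq_zero] at h1
  exact h1.symm

theorem root_of_shift (b : Polynomial ℂ) (k j : ℕ) (hk : k ≠ 0) (r t : ℂ)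
    (h : (b.comp (Polynomial.C ((k : ℂ)⁻¹) * (Polynomial.X - Polynomial.C (j : ℂ)))).eval
      (k * r) = 0) : b.eval (r - j / k) = 0 := by
  have hkC : (k : ℂ) ≠ 0 := by exact_mod_cast hk
  rw [Polynomial.eval_comp, Polynomial.eval_mul, Polynomial.eval_sub, Polynomial.eval_C,
    Polynomial.eval_C, Polynomial.eval_X] at h
  have e : (k : ℂ)⁻¹ * (k * r - j) = r - j / k := by
    field_simp
  rwa [e] at h

end Pool.Agent.R852.TP
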