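import Pool.Agent.R852.TP.Defs
import Pool.Agent.R852.TP.Pow
import Pool.Agent.R852.PP.Mul

set_option autoImplicit false
set_option linter.unusedSectionVars false
set_option linter.unusedVariables false

/-! # The induction -/

namespace Pool.Agent.R852.TP

open Polynomial Pool.Agent.W574.SM Pool.Agent.W574.CN Pool.Agent.W574.RO Pool.Agent.Y229
open Pool.Agent.W574.MO Pool.Agent.W425.SM Pool.Agent.W425.SV Pool.Agent.W422.GC
open Pool.Agent.W425.ND Pool.Agent.W574.HS Pool.Agent.Y230.PS Pool.Agent.Y230.TH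
open Pool.Agent.R852.PP
open Pool.Agent.H628R4.TP (IsBFunction)

theorem comp_ne (k : ℕ) (hk : k ≠ 0) (q : ℂ[X]) (hq : q ≠ 0) : q.comp (C (k : ℂ) * X) ≠ 0 := by
  have hkC : (k : ℂ) ≠ 0 := by exact_mod_cast hk
  intro h0
  apply hq
  have h1 := congrArg (fun P : ℂ[X] => P.comp (C ((k : ℂ)⁻¹) * X)) h0
  beta_reduce at h1
  rw [comp_assoc, mul_comp, C_comp, X_comp, ← mul_assoc, ← C_mul, mul_inv_cancel₀ hkC, C_1,
    one_mul, comp_X, zero_comp] at h1
  exact h1

/-- the poles of `Z(k s)` -/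
theorem pole_scale (k : ℕ) (hk : k ≠ 0) (p q : ℂ[X]) (hq : q ≠ 0) (s : ℂ)
    (hs : (algebraMap ℂ[X] (RatFunc ℂ) (p.comp (C (k : ℂ) * X)) /
      algebraMap ℂ[X] (RatFunc ℂ) (q.comp (C (k : ℂ) * X))).denom.eval s = 0) :
    (algebraMap ℂ[X] (RatFunc ℂ) p / algebraMap ℂ[X] (RatFunc ℂ) q).denom.eval (k * s) = 0 := by
  by_contra hne
  refine Reg_denom s _ ?_ hs
  set Z := algebraMap ℂ[X] (RatFunc ℂ) p / algebraMap ℂ[X] (RatFunc ℂ) q with hZ
  have hd : Z.denom ≠ 0 := Z.denom_ne_zero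
  have hq' : algebraMap ℂ[X] (RatFunc ℂ) q ≠ 0 := RatFunc.algebraMap_ne_zero hq
  have hd' : algebraMap ℂ[X] (RatFunc ℂ) Z.denom ≠ 0 := RatFunc.algebraMap_ne_zero hd
  have h1 : p * Z.denom = Z.num * q := by
    apply RatFunc.algebraMap_injective ℂ
    rw [map_mul, map_mul]
    have h2 := Z.num_div_denom
    rw [hZ, div_eq_div_iff hd' hq', ← hZ] at h2
    rw [h2]
  refine ⟨Z.num.comp (C (k : ℂ) * X), Z.denom.comp (C (k : ℂ) * X), ?_, ?_⟩
  · rw [eval_comp, eval_mul, eval_C, eval_X]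
    exact hne
  · have h3 := comp_ne k hk q hq
    have h4 := comp_ne k hk Z.denom hd
    rw [div_eq_div_iff (RatFunc.algebraMap_ne_zero h3) (RatFunc.algebraMap_ne_zero h4), ← map_mul, ← map_mul, ← mul_comp, ← mul_comp,
      h1]

/-- the powers -/
theorem cl_pow (T : AddSubmonoid ℂ)
    (hT : ∀ t ∈ T, ∀ k : ℕ, k ≠ 0 → ∃ j < k, ∃ t' ∈ T, t + j = k * t') {σ : Type}
    (g : MvPolynomial σ ℂ) (k : ℕ) (hk : k ≠ 0) (p q : ℂ[X]) (hq : q ≠ 0)
    (ih : Cl T true ⟨σ, Fin 1, fun _ => g⟩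
      (algebraMap ℂ[X] (RatFunc ℂ) p / algebraMap ℂ[X] (RatFunc ℂ) q)) :
    Cl T false ⟨σ, Fin 1, fun _ => g ^ k⟩ (algebraMap ℂ[X] (RatFunc ℂ) (p.comp (C (k : ℂ) * X)) /
      algebraMap ℂ[X] (RatFunc ℂ) (q.comp (C (k : ℂ) * X))) := by
  have hg : g ≠ 0 := by
    obtain ⟨j, hj⟩ := ih.ne
    exact hj
  refine ⟨ih.fin, ⟨(0 : Fin 1), pow_ne_zero k hg⟩, fun s hs => ?_, fun h0 => absurd h0 (by simp),
    fun h0 => absurd h0 (by simp)⟩
  obtain ⟨t, ht, h1⟩ := ih.pole _ (pole_scale k hk p q hq s hs)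
  obtain ⟨j, hj, t', ht', h2⟩ := hT t ht k hk
  refine ⟨t', ht', ?_⟩
  have hkC : (k : ℂ) ≠ 0 := by exact_mod_cast hk
  rw [fm_one] at h1 ⊢
  intro b hb
  have h3 := h1 _ (single_of_isB _ _ (isB_shift g hg k j hj b (isB_of_single _ b hb)))
  rw [eval_comp, eval_mul, eval_sub, eval_C, eval_C, eval_X] at h3
  have e : (k : ℂ)⁻¹ * (k * s - t - j) = s - t' := by
    have : (k : ℂ) * s - t - j = k * (s - t') := by linear_combination -h2
    rw [this, inv_mul_cancel_left₀ hkC]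
  rwa [e] at h3

section Form

variable {σ τ : Type} [Fintype τ] [DecidableEq τ] {κ : τ → Type} [∀ t, Fintype (κ t)]
  (a : τ → ℕ) (h : MvPolynomial σ ℂ) (f : (t : τ) → κ t → MvPolynomial σ ℂ)

theorem gen_ne' (ha : ∀ t, 0 < a t) (hA : ∃ J, (genFam a h f).f J ≠ 0) :
    h ≠ 0 ∧ (∀ t, ∃ j, f t j ≠ 0) := by
  obtain ⟨J, hJ⟩ := hA
  refine ⟨left_ne_zero_of_mul hJ, fun t => ?_⟩
  exact ⟨J ⟨t, ⟨0, ha t⟩⟩, (Finset.prod_ne_zero_iff.1 (right_ne_zero_of_mul hJ))
    ⟨t, ⟨0, ha t⟩⟩ (Finset.mem_univ _)⟩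

/-- **The functional equations of a product of powers.** -/
theorem fm_form [Nonempty τ] (ha : ∀ t, 0 < a t) (hA : ∃ J, (genFam a h f).f J ≠ 0) (z : ℂ)
    (n : ℕ) (hn : FM (genFam a h f).f z n) : FM (formFam a h f).f z (n + cntR a z) := by
  classical
  intro b hb
  obtain ⟨hh, hf⟩ := gen_ne' a h f ha hA
  obtain ⟨t0⟩ := (inferInstance : Nonempty τ)
  obtain ⟨b', e, h2⟩ := functionalEq_strong a h f hh hf t0 (ha t0).ne' b (isB_of_single _ b hb)
  have h3 : (X - C z) ^ n ∣ b' := hn b' h2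
  rw [e, pow_add, mul_comm (phiA a)]
  exact mul_dvd_mul h3 (cntR_dvd a z)

theorem form_ne' (ha : ∀ t, 0 < a t) (hA : ∃ J, (genFam a h f).f J ≠ 0) :
    (formFam a h f).f 0 ≠ 0 := by
  classical
  obtain ⟨hh, hf⟩ := gen_ne' a h f ha hA
  refine mul_ne_zero (fun h0 => hh ?_) (Finset.prod_ne_zero_iff.2 fun t _ => pow_ne_zero _ ?_)
  · exact MvPolynomial.rename_injective _ Sum.inr_injective (by rw [h0, map_zero])
  · intro h0
    obtain ⟨j0, hj0⟩ := hf t
    apply hj0
    set ε : (Σ t, κ t) ⊕ σ → MvPolynomial σ ℂ :=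
      Sum.elim (fun q => if q = ⟨t, j0⟩ then 1 else 0) MvPolynomial.X with hε
    have h2 := congrArg (MvPolynomial.aeval ε :
      MvPolynomial ((Σ t, κ t) ⊕ σ) ℂ → MvPolynomial σ ℂ) h0
    rw [map_zero, map_sum] at h2
    rw [← h2, Finset.sum_eq_single j0]
    · rw [map_mul, MvPolynomial.aeval_X, MvPolynomial.aeval_rename, hε, Sum.elim_inl, if_pos rfl,
        Sum.elim_comp_inr, MvPolynomial.aeval_X_left_apply, one_mul]
    · intro j _ hj
      rw [map_mul, MvPolynomial.aeval_X, hε, Sum.elim_inl, if_neg, zero_mul]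
      intro h3
      exact hj (eq_of_heq (Sigma.mk.inj h3).2)
    · intro h
      exact absurd (Finset.mem_univ j0) h

theorem two_le_cntR (ha : ∀ t, 0 < a t) (hc : 1 < Fintype.card τ) : 2 ≤ cntR a (-1) := by
  classical
  unfold cntR
  rw [Finset.filter_true_of_mem]
  · exact hc
  · intro t _
    refine ⟨a t - 1, ?_, ?_⟩
    · rw [Finset.mem_range]
      have := ha t
      omega
    · rw [Nat.sub_add_cancel (ha t)]
      ring

theorem one_le_cntR' (ha : ∀ t, 0 < a t) (t : τ) (s : ℂ) (hs : s = -(1 + ((0 : ℕ) : ℂ)) / a t) :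
    1 ≤ cntR a s := by
  classical
  unfold cntR
  refine Finset.card_pos.2 ⟨t, ?_⟩
  rw [Finset.mem_filter]
  refine ⟨Finset.mem_univ _, 0, Finset.mem_range.2 (ha t), ?_⟩
  have h1 : (a t : ℂ) ≠ 0 := by exact_mod_cast (ha t).ne'
  rw [hs]
  push_cast
  field_simp
  ring

/-- the products of powers -/
theorem cl_form (T : AddSubmonoid ℂ) [Nonempty τ] (ha : ∀ t, 0 < a t) (Z : RatFunc ℂ)
    (ih : Cl T false (genFam a h f) Z) : Cl T true (formFam a h f) (Z * ∏ t, fac (a t) 1) := by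
  classical
  have hfin : Finite σ := ih.fin
  have hne := ih.ne
  obtain ⟨t0⟩ := (inferInstance : Nonempty τ)
  have h0 : ∀ z, FM (genFam a h f).f z 0 := fun z b hb => by
    rw [pow_zero]; exact one_dvd _
  have hcnt : ∀ z, FM (formFam a h f).f z (cntR a z) := fun z => by
    have := fm_form a h f ha hne z 0 (h0 z)
    rwa [zero_add] at this
  refine ⟨inferInstanceAs (Finite ((Σ t, κ t) ⊕ σ)), ⟨(0 : Fin 1), form_ne' a h f ha hne⟩,
    fun s hs => ?_, fun _ _ => (hcnt _).mono (one_le_cntR a t0 (ha t0)), fun _ s hs => ?_⟩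
  · rcases prod_fac_pole a ha Z s hs with h1 | ⟨t, h1⟩
    · obtain ⟨t, ht, h2⟩ := ih.pole s h1
      exact ⟨t, ht, (fm_form a h f ha hne _ _ h2).mono (Nat.le_add_right _ _)⟩
    · refine ⟨0, T.zero_mem, ?_⟩
      rw [sub_zero]
      exact (hcnt s).mono (one_le_cntR' a ha t s h1)
  · by_cases h1 : Z.denom.eval s = 0
    · obtain ⟨t, ht, h2⟩ := ih.pole s h1
      refine ⟨t, ht, (fm_form a h f ha hne _ _ h2).mono ?_⟩
      exact Nat.add_le_add_left (dl_le_cntR a t0 (ha t0) _) 1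
    · refine ⟨0, T.zero_mem, ?_⟩
      rw [sub_zero]
      refine (hcnt s).mono ?_
      by_cases hs1 : s = -1
      · subst hs1
        rw [dl_eq, if_pos rfl]
        refine two_le_cntR a ha ?_
        by_contra hcard
        have hcard1 : Fintype.card τ = 1 :=
          le_antisymm (by omega) (Fintype.card_pos_iff.2 ⟨t0⟩)
        obtain ⟨x, hx⟩ := Fintype.card_eq_one_iff.1 hcard1
        have e : ∏ t, fac (a t) 1 = fac (a x) 1 := by
          rw [Finset.prod_eq_single x]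
          · intro y _ hy
            exact absurd (hx y) hy
          · intro h
            exact absurd (Finset.mem_univ _) h
        rw [e] at hs
        refine Reg_denom (-1) _ ?_ hs
        have e2 : (RatFunc.X + 1) * (Z * fac (a x) 1) = Z * ((RatFunc.X + 1) * fac (a x) 1) := by
          ring
        rw [e2]
        refine (Reg _).mul_mem (mem_Reg_of_denom _ _ h1) ?_
        by_cases h2 : a x = 1
        · have e3 : (RatFunc.X + 1) * fac (a x) 1 = (1 : RatFunc ℂ) := by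
            rw [h2, fac]
            have h4 := X1_ne
            have h5 : ((1 : ℕ) : RatFunc ℂ) + ((1 : ℕ) : RatFunc ℂ) * RatFunc.X =
                RatFunc.X + 1 := by
              push_cast
              ring
            rw [h5, mul_one_div, div_self h4]
          rw [e3]
          exact (Reg _).one_mem
        · refine (Reg _).mul_mem (X1_reg _) (fac_mem _ _ _ fun h3 => h2 ?_)
          have h4 : (a x : ℂ) = 1 := by
            push_cast at h3
            linear_combination -h3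
          exact_mod_cast h4
      · rw [dl_eq, if_neg hs1, add_zero]
        have h3 : (Z * ∏ t, fac (a t) 1).denom.eval s = 0 := by
          by_contra h4
          refine Reg_denom s _ ?_ hs
          exact (Reg s).mul_mem (X1_reg s) (mem_Reg_of_denom _ _ h4)
        rcases prod_fac_pole a ha Z s h3 with h4 | ⟨t, h4⟩
        · exact absurd h4 h1
        · exact one_le_cntR' a ha t s h4

end Form

/-- **The induction.** -/
theorem tp_closure (T : AddSubmonoid ℂ)
    (hT : ∀ t ∈ T, ∀ k : ℕ, k ≠ 0 → ∃ j < k, ∃ t' ∈ T, t + j = k * t') (At HAt : Fam → RatFunc ℂ → Prop)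
    (hAt : ∀ A Z, At A Z → Finite A.σ ∧ (∃ j, A.f j ≠ 0) ∧
      ∀ s₀ : ℂ, Z.denom.eval s₀ = 0 → ∃ t ∈ T, FoG A (s₀ - t))
    (hHAt : ∀ A Z, HAt A Z → Cl T true A Z)
    (c : Bool) (A : Fam) (Z : RatFunc ℂ) (h : TPw At HAt c A Z) : Cl T c A Z := by
  induction h with
  | atom A Z h =>
    obtain ⟨h1, h2, h3⟩ := hAt A Z h
    refine ⟨h1, h2, fun s hs => ?_, fun h0 => absurd h0 (by simp), fun h0 => absurd h0 (by simp)⟩
    obtain ⟨t, ht, h4⟩ := h3 s hs
    exact ⟨t, ht, (fm_one _ _).2 h4⟩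
  | hatom A Z h => exact hHAt A Z h
  | hyp A Z h ih =>
    exact ⟨ih.fin, ih.ne, ih.pole, fun h0 => absurd h0 (by simp), fun h0 => absurd h0 (by simp)⟩
  | pow σ g k hk p q hq h ih => exact cl_pow T hT g k hk p q hq ih
  | sum A B Z W v w hv hw hv0 hw0 hA hB ihA ihB =>
    have := ihA.fin
    have := ihB.fin
    refine ⟨inferInstanceAs (Finite (A.σ ⊕ B.σ)), ?_, fun s hs => ?_,
      fun h0 => absurd h0 (by simp), fun h0 => absurd h0 (by simp)⟩
    · obtain ⟨j, hj⟩ := ihA.ne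
      refine ⟨Sum.inl j, ?_⟩
      change MvPolynomial.rename Sum.inl (A.f j) ≠ 0
      rw [Ne, map_eq_zero_iff _ (MvPolynomial.rename_injective _ Sum.inl_injective)]
      exact hj
    · obtain ⟨p, hp, q, hq, rfl⟩ := lap2_pole v w s hs
      obtain ⟨t, ht, h1⟩ := ihA.pole _ (pole_of_exp Z v hv hv0 p hp)
      obtain ⟨t', ht', h2⟩ := ihB.pole _ (pole_of_exp W w hw hw0 q hq)
      refine ⟨t + t', T.add_mem ht ht', ?_⟩
      have h3 : FoG (A.sum B) ((-p.1 - t) + (-q.1 - t')) :=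
        isForcing_global.sum A B _ _ ((fm_one _ _).1 h1) ((fm_one _ _).1 h2)
      have h4 : -p.1 + -q.1 - (t + t') = (-p.1 - t) + (-q.1 - t') := by ring
      rw [h4]
      exact (fm_one _ _).2 h3
  | mul c A B Z W hA hB ihA ihB =>
    have hfA := ihA.fin
    have hfB := ihB.fin
    have hneA := ihA.ne
    have hneB := ihB.ne
    have hpole : ∀ s : ℂ, (Z * W).denom.eval s = 0 → Z.denom.eval s = 0 ∨ W.denom.eval s = 0 := by
      intro s hs
      by_contra hne
      push Not at hne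
      exact Reg_denom s _ ((Reg s).mul_mem (mem_Reg_of_denom _ _ hne.1)
        (mem_Reg_of_denom _ _ hne.2)) hs
    refine ⟨inferInstanceAs (Finite (A.σ ⊕ B.σ)), ?_, fun s hs => ?_, fun h0 hs => ?_,
      fun h0 s hs => ?_⟩
    · obtain ⟨j, hj⟩ := hneA
      obtain ⟨k, hk⟩ := hneB
      refine ⟨(j, k), ?_⟩
      change (MvPolynomial.rename Sum.inl (A.f j) * MvPolynomial.rename Sum.inr (B.f k) :
        MvPolynomial (A.σ ⊕ B.σ) ℂ) ≠ 0
      refine mul_ne_zero ?_ ?_
      · rw [Ne, map_eq_zero_iff _ (MvPolynomial.rename_injective _ Sum.inl_injective)]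
        exact hj
      · rw [Ne, map_eq_zero_iff _ (MvPolynomial.rename_injective _ Sum.inr_injective)]
        exact hk
    · rcases hpole s hs with h1 | h1
      · obtain ⟨t, ht, h2⟩ := ihA.pole s h1
        exact ⟨t, ht, fm_mulL A B _ _ hneB h2⟩
      · obtain ⟨t, ht, h2⟩ := ihB.pole s h1
        exact ⟨t, ht, fm_mulR A B _ _ hneA h2⟩
    · rcases hpole _ hs with h1 | h1
      · exact fm_mulL A B _ _ hneB (ihA.one h0 h1)
      · exact fm_mulR A B _ _ hneA (ihB.one h0 h1)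
    · by_cases hZ : ((RatFunc.X + 1) * Z).denom.eval s = 0
      · obtain ⟨t, ht, h2⟩ := ihA.ref h0 s hZ
        exact ⟨t, ht, fm_mulL A B _ _ hneB h2⟩
      · by_cases hW : ((RatFunc.X + 1) * W).denom.eval s = 0
        · obtain ⟨t, ht, h2⟩ := ihB.ref h0 s hW
          exact ⟨t, ht, fm_mulR A B _ _ hneA h2⟩
        · have hZ' : Z.denom.eval s = 0 := by
            by_contra h1
            refine Reg_denom s _ ?_ hs
            have := (Reg s).mul_mem (mem_Reg_of_denom _ _ h1) (mem_Reg_of_denom _ _ hW)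
            have e : Z * ((RatFunc.X + 1) * W) = (RatFunc.X + 1) * (Z * W) := by ring
            rwa [e] at this
          have hW' : W.denom.eval s = 0 := by
            by_contra h1
            refine Reg_denom s _ ?_ hs
            have := (Reg s).mul_mem (mem_Reg_of_denom _ _ hZ) (mem_Reg_of_denom _ _ h1)
            have e : (RatFunc.X + 1) * Z * W = (RatFunc.X + 1) * (Z * W) := by ring
            rwa [e] at this
          rcases ref_of_pole Z s hZ' with h1 | rfl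
          · exact absurd h1 hZ
          · refine ⟨0, T.zero_mem, ?_⟩
            rw [sub_zero, dl_eq, if_pos rfl]
            exact fm_mul A B hfA hneA hneB (ihA.one h0 hZ') (ihB.one h0 hW')
  | univ A Z hA ihA =>
    have hfA := ihA.fin
    have hneA := ihA.ne
    have h1 : FM (univFam A).f (-1) 1 := by
      have := fm_univ A hneA (-1) 0 (fun b hb => by rw [pow_zero]; exact one_dvd _)
      rwa [dl_eq, if_pos rfl] at this
    refine ⟨inferInstanceAs (Finite (A.ι ⊕ A.σ)), ⟨0, univFam_ne A hneA⟩, fun s hs => ?_,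
      fun _ _ => h1, fun _ s hs => ?_⟩
    · rcases pole_form Z s hs with h2 | rfl
      · obtain ⟨t, ht, h3⟩ := ihA.pole s h2
        exact ⟨t, ht, (fm_univ A hneA _ _ h3).mono (Nat.le_add_right _ _)⟩
      · exact ⟨0, T.zero_mem, by rw [sub_zero]; exact h1⟩
    · have e : (RatFunc.X + 1) * (Z * (RatFunc.X + 1)⁻¹) = Z := by
        have := X1_ne
        field_simp
      rw [e] at hs
      obtain ⟨t, ht, h3⟩ := ihA.pole s hs
      exact ⟨t, ht, fm_univ A hneA _ _ h3⟩
  | form σ τ κ a ha h f Z hA ihA => exact cl_form a h f T ha Z ihA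
  | ts A τ g Z W v w c hv hw hv0 hw0 hA hg ihA ihg =>
    have hfA := ihA.fin
    have hfg := ihg.fin
    have hneA := ihA.ne
    have hg0 : g ≠ 0 := by
      obtain ⟨j, hj⟩ := ihg.ne
      exact hj
    have h1 : FM (tsFam A τ g).f (-1) 1 := by
      intro b hb
      obtain ⟨b', rfl, -⟩ := fm_ts A τ g hneA hg0 b hb
      rw [pow_one, X_add_one]
      exact dvd_mul_right _ _
    have href : ∀ s : ℂ, (1 - RatFunc.X * (lap2 v w - RatFunc.C (c * val0 v))).denom.eval s = 0 →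
        ∃ t ∈ T, FM (tsFam A τ g).f (s - t) (1 + dl (s - t)) := by
      intro s hs
      have h2 : (1 - RatFunc.X * lap2 v w).denom.eval s = 0 := by
        by_contra h2
        refine Reg_denom s _ ?_ hs
        have h3 := (Reg s).add_mem (mem_Reg_of_denom _ _ h2)
          ((Reg s).mul_mem (X_reg s) (C_reg s (c * val0 v)))
        have e : 1 - RatFunc.X * lap2 v w + RatFunc.X * RatFunc.C (c * val0 v) =
          1 - RatFunc.X * (lap2 v w - RatFunc.C (c * val0 v)) := by ring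
        rwa [e] at h3
      obtain ⟨p, hp, q, hq, rfl⟩ := lap2_pole v w s h2
      obtain ⟨t, ht, h3⟩ := ihA.pole _ (pole_of_exp Z v hv hv0 p hp)
      have h4 : ((RatFunc.X + 1) * W).denom.eval (-q.1) = 0 := by
        have h5 := pole_of_exp ((RatFunc.X + 1) * W - RatFunc.X * RatFunc.C c) w
          (by linear_combination hw) hw0 q hq
        by_contra h6
        exact Reg_denom _ _ ((Reg _).sub_mem (mem_Reg_of_denom _ _ h6)
          ((Reg _).mul_mem (X_reg _) (C_reg _ c))) h5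
      obtain ⟨t', ht', h5⟩ := ihg.ref rfl _ h4
      refine ⟨t + t', T.add_mem ht ht', ?_⟩
      have h6 : -p.1 + -q.1 - (t + t') = (-p.1 - t) + (-q.1 - t') := by ring
      rw [h6]
      intro b hb
      obtain ⟨b', rfl, h7⟩ := fm_ts A τ g hneA hg0 b hb
      have h8 := h7 _ _ 1 1 le_rfl le_rfl h3 h5
      rw [dl_eq]
      split_ifs with h9
      · rw [pow_succ']
        refine mul_dvd_mul ?_ h8
        rw [X_add_one, h9]
      · exact h8.mul_left _
    refine ⟨inferInstanceAs (Finite ((A.ι ⊕ A.σ) ⊕ τ)), ⟨0, tsFam_ne A τ g hg0⟩, fun s hs => ?_,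
      fun _ _ => h1, fun _ s hs => ?_⟩
    · rcases pole_form _ s hs with h2 | rfl
      · obtain ⟨t, ht, h3⟩ := href s h2
        exact ⟨t, ht, h3.mono (Nat.le_add_right _ _)⟩
      · exact ⟨0, T.zero_mem, by rw [sub_zero]; exact h1⟩
    · refine href s ?_
      have e : (RatFunc.X + 1) * ((1 - RatFunc.X * (lap2 v w - RatFunc.C (c * val0 v))) *
          (RatFunc.X + 1)⁻¹) = 1 - RatFunc.X * (lap2 v w - RatFunc.C (c * val0 v)) := by
        rw [mul_comm, mul_assoc, inv_mul_cancel₀ X1_ne, mul_one]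
      rwa [e] at hs
  | drop σ κ g Z h ih =>
    have hf : Finite (σ ⊕ κ) := ih.fin
    have hf' : Finite σ := Finite.of_injective (Sum.inl : σ → σ ⊕ κ) Sum.inl_injective
    refine ⟨hf', ⟨(0 : Fin 1), fun h0 => ?_⟩, fun s hs => ?_, fun h0 hs => ?_, fun h0 s hs => ?_⟩
    · obtain ⟨j, hj⟩ := ih.ne
      apply hj
      have h1 : g = 0 := h0
      change MvPolynomial.rename Sum.inl g = 0
      rw [h1, map_zero]
    · obtain ⟨t, ht, h1⟩ := ih.pole s hs
      exact ⟨t, ht, fm_drop (κ := κ) g _ _ h1⟩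
    · exact fm_drop (κ := κ) g _ _ (ih.one h0 hs)
    · obtain ⟨t, ht, h1⟩ := ih.ref h0 s hs
      exact ⟨t, ht, fm_drop (κ := κ) g _ _ h1⟩
  | equiv c A B i k h Z hA ihA =>
    have hf := ihA.fin
    refine ⟨Finite.of_equiv A.σ i, ?_, fun s hs => ?_, fun h0 hs => ?_, fun h0 s hs => ?_⟩
    · obtain ⟨j, hj⟩ := ihA.ne
      refine ⟨k j, ?_⟩
      rw [h, Ne, map_eq_zero_iff _ (MvPolynomial.rename_injective _ i.injective)]
      exact hj
    · obtain ⟨t, ht, h1⟩ := ihA.pole s hs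
      exact ⟨t, ht, fm_equiv A B i k h _ _ h1⟩
    · exact fm_equiv A B i k h _ _ (ihA.one h0 hs)
    · obtain ⟨t, ht, h1⟩ := ihA.ref h0 s hs
      exact ⟨t, ht, fm_equiv A B i k h _ _ h1⟩

end Pool.Agent.R852.TP
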