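import Pool.Agent.R852.TP.Main

set_option autoImplicit false
set_option linter.unusedSectionVars false
set_option linter.unusedVariables false

/-! # The class closed under powers and products of powers: the final statements -/

namespace Pool.Agent.R852.TP

open MvPolynomial Pool.Agent.W574.SM Pool.Agent.W574.CN Pool.Agent.W574.RO Pool.Agent.Y229
open Pool.Agent.W574.MO Pool.Agent.W425.SM Pool.Agent.W425.SV Pool.Agent.W422.GC
open Pool.Agent.W425.ND Pool.Agent.W574.HS Pool.Agent.Y230.PS Pool.Agent.TH192.DT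
open Pool.Agent.Y230.TH Pool.Agent.TH187.SA Pool.Agent.W574.LM
open Pool.Agent.Y228.AT (AllGlobal allGlobal_poles topZeta_pole)
open Pool.Agent.Y230.RS (topZeta)
open Pool.Agent.H628R4.TP (IsBFunction)

theorem isLocEq_one {σ ι : Type} [Fintype ι] (f : ι → MvPolynomial σ ℂ) (b : Polynomial ℂ)
    (h : IsFunctionalEq f b) : IsLocEq 1 f b := by
  obtain ⟨S, P, h1, h2⟩ := h
  refine ⟨S, P, h1, fun s => ?_⟩
  rw [one_mul]
  exact h2 s

theorem arr_forced {σ S : Type} [Fintype σ] [DecidableEq σ] [Fintype S] [DecidableEq S]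
    {κ : S → Type} [∀ s, Fintype (κ s)] (c : (s : S) → κ s → σ → ℂ) (e : S → ℕ)
    (G : Submodule ℂ (σ → ℂ))
    (hG : IsReesFlat (fun s => zeros (c s)) (fun s => e s ≠ 0) G) (s₀ : ℂ)
    (h0 : 0 < mult (fun s => zeros (c s)) e G)
    (hs : ((Fintype.card σ - Module.finrank ℂ G - 1 + 1 : ℕ) : ℂ) +
      (mult (fun s => zeros (c s)) e G : ℕ) * s₀ = 0) :
    Forced (arrGen c e) s₀ := by
  classical
  intro b hb
  have h1 := arr_roots_one c e b 1 (by simp) (isLocEq_one _ b hb) G hG 0 h0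
  have hc := codim_pos hG
  rw [Nat.sub_add_cancel hc] at hs
  have hm : ((mult (fun s => zeros (c s)) e G : ℕ) : ℂ) ≠ 0 := by exact_mod_cast h0.ne'
  have e1 : -(((Fintype.card σ - Module.finrank ℂ G : ℕ) : ℂ) + ((0 : ℕ) : ℂ)) /
      (mult (fun s => zeros (c s)) e G : ℕ) = s₀ := by
    rw [div_eq_iff hm]
    push_cast
    linear_combination -hs
  rwa [e1] at h1

theorem sa_at (T : AddSubmonoid ℂ) (A : Fam) (Z : RatFunc ℂ) (h : StrongAt A Z) :
    Finite A.σ ∧ (∃ j, A.f j ≠ 0) ∧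
      ∀ s₀ : ℂ, Z.denom.eval s₀ = 0 → ∃ t ∈ T, FoG A (s₀ - t) := by
  classical
  cases h with
  | all _ _ h => exact ag_at T A Z h
  | arr σ S I κ c hc e G hG χ =>
    refine ⟨Finite.of_fintype σ, arrGen_ne c hc e, fun s hs => ?_⟩
    obtain ⟨S', hS', i, hi, h1, h2⟩ := topZeta_pole _ _ χ s hs
    refine ⟨0, T.zero_mem, ?_⟩
    rw [sub_zero]
    exact arr_forced c e (G i) (hG i) s h1 h2

theorem wa_atP (A : Fam) (Z : RatFunc ℂ) (h : WeakAtP A Z) :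
    Finite A.σ ∧ (∃ j, A.f j ≠ 0) ∧
      ∀ s₀ : ℂ, Z.denom.eval s₀ = 0 → ∃ t ∈ natC, FoG A (s₀ - t) := by
  cases h with
  | strong h => exact sa_at natC A Z h
  | weak h =>
    obtain ⟨h1, h2⟩ := weakGlobal_poles A Z h
    refine ⟨wg_fin A Z h, h1, fun s hs => ?_⟩
    obtain ⟨i, hi⟩ := h2 s hs
    exact ⟨i, (mem_natC _).2 ⟨i, rfl⟩, hi⟩

theorem bot_div : ∀ t ∈ (⊥ : AddSubmonoid ℂ), ∀ k : ℕ, k ≠ 0 →
    ∃ j < k, ∃ t' ∈ (⊥ : AddSubmonoid ℂ), t + ((j : ℕ) : ℂ) = k * t' := by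
  intro t ht k hk
  rw [AddSubmonoid.mem_bot] at ht
  refine ⟨0, Nat.pos_of_ne_zero hk, 0, AddSubmonoid.zero_mem _, ?_⟩
  rw [ht]
  simp

theorem nat_div : ∀ t ∈ natC, ∀ k : ℕ, k ≠ 0 →
    ∃ j < k, ∃ t' ∈ natC, t + ((j : ℕ) : ℂ) = k * t' := by
  intro t ht k hk
  obtain ⟨n, rfl⟩ := (mem_natC _).1 ht
  have hk' : 0 < k := Nat.pos_of_ne_zero hk
  have h1 : ∃ j < k, ∃ q : ℕ, n + j = k * q := by
    by_cases h : n % k = 0
    · exact ⟨0, hk', n / k, by rw [add_zero]; exact (Nat.mul_div_cancel' (Nat.dvd_of_mod_eq_zero h)).symm⟩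
    · have h2 := Nat.mod_lt n hk'
      refine ⟨k - n % k, by omega, n / k + 1, ?_⟩
      have h3 := Nat.div_add_mod n k
      rw [mul_add, mul_one]
      omega
  obtain ⟨j, hj, q, hq⟩ := h1
  refine ⟨j, hj, q, (mem_natC _).2 ⟨q, rfl⟩, ?_⟩
  exact_mod_cast hq

/-- **The strong conjecture for the ideals in the class.** -/
theorem tp_ideal (A : Fam) (Z : RatFunc ℂ) (h : TPw StrongAt StrongHyp false A Z)
    (b : Polynomial ℂ) (hb : IsFunctionalEq A.f b) (s₀ : ℂ) (hs : Z.denom.eval s₀ = 0) :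
    b.eval s₀ = 0 := by
  obtain ⟨t, ht, h1⟩ := (tp_closure ⊥ bot_div StrongAt StrongHyp (fun A Z h => sa_at ⊥ A Z h)
    (fun A Z h => strongHyp_cl ⊥ A Z h) false _ Z h).pole s₀ hs
  rw [AddSubmonoid.mem_bot] at ht
  rw [ht, sub_zero, fm_one] at h1
  exact h1 b hb

/-- **The strong conjecture for the hypersurfaces in the class.** -/
theorem tp_strong {σ : Type} (F : MvPolynomial σ ℂ) (Z : RatFunc ℂ)
    (h : TPw StrongAt StrongHyp false ⟨σ, Fin 1, fun _ => F⟩ Z) (b : Polynomial ℂ)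
    (hb : IsBFunction F b) (s₀ : ℂ) (hs : Z.denom.eval s₀ = 0) : b.eval s₀ = 0 :=
  tp_ideal _ Z h b (single_of_isB F b hb) s₀ hs

/-- **The weak conjecture for the hypersurfaces in the class.** -/
theorem tp_weak {σ : Type} (F : MvPolynomial σ ℂ) (Z : RatFunc ℂ)
    (h : TPw WeakAtP WeakHyp false ⟨σ, Fin 1, fun _ => F⟩ Z) (b : Polynomial ℂ)
    (hb : IsBFunction F b) (s₀ : ℂ) (hs : Z.denom.eval s₀ = 0) :
    ∃ i : ℕ, b.eval (s₀ - i) = 0 := by
  obtain ⟨t, ht, h1⟩ := (tp_closure natC nat_div WeakAtP WeakHyp wa_atP weakHyp_cl false _ Z h).pole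
    s₀ hs
  obtain ⟨i, rfl⟩ := (mem_natC _).1 ht
  rw [fm_one] at h1
  exact ⟨i, h1 b (single_of_isB F b hb)⟩

theorem phiA_fac {τ : Type} [Fintype τ] (a : τ → ℕ) (ha : ∀ t, 0 < a t) :
    ∃ P : Polynomial ℂ, algebraMap (Polynomial ℂ) (RatFunc ℂ) (Pool.Agent.R852.PP.phiA a) *
      ∏ t, fac (a t) 1 = algebraMap (Polynomial ℂ) (RatFunc ℂ) P := by
  classical
  refine ⟨∏ t, ∏ i ∈ (Finset.range (a t)).erase 0,
    (Polynomial.C (a t : ℂ) * Polynomial.X + Polynomial.C ((i + 1 : ℕ) : ℂ)), ?_⟩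
  rw [Pool.Agent.R852.PP.phiA, map_prod, map_prod, ← Finset.prod_mul_distrib]
  refine Finset.prod_congr rfl fun t _ => ?_
  rw [← Finset.mul_prod_erase _ _ (Finset.mem_range.2 (ha t)), map_mul, mul_right_comm]
  have h1 : algebraMap (Polynomial ℂ) (RatFunc ℂ) (Polynomial.C (a t : ℂ) * Polynomial.X +
      Polynomial.C ((0 + 1 : ℕ) : ℂ)) * fac (a t) 1 = 1 := by
    rw [fac_eq]
    have e : (Polynomial.C ((1 : ℕ) : ℂ) + Polynomial.C (a t : ℂ) * Polynomial.X) =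
        Polynomial.C (a t : ℂ) * Polynomial.X + Polynomial.C ((0 + 1 : ℕ) : ℂ) := by
      rw [zero_add, add_comm]
    rw [e, mul_one_div, div_self]
    refine RatFunc.algebraMap_ne_zero fun h0 => ?_
    have h2 := congrArg (Polynomial.eval 0) h0
    simp at h2
  rw [h1, one_mul]

/-- **The polynomials `h(x₁, x₂) ∏_t (∑_j y_{t, j} f_{t, j}(x₁, x₂)) ^ a_t`, with the orders of the
poles.** -/
theorem plane_form {τ : Type} [Fintype τ] [DecidableEq τ] [Nonempty τ] {κ : τ → Type}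
    [∀ t, Fintype (κ t)] (a : τ → ℕ) (ha : ∀ t, 0 < a t) (h : MvPolynomial (Fin 2) ℂ)
    (f : (t : τ) → κ t → MvPolynomial (Fin 2) ℂ) (hh : h ≠ 0) (hf : ∀ t, ∃ j, f t j ≠ 0)
    (Z : RatFunc ℂ) (hZ : PlaneZeta (genFam a h f).f Z) (b : Polynomial ℂ)
    (hb : IsBFunction ((formFam a h f).f 0) b) :
    ∃ P : Polynomial ℂ, algebraMap (Polynomial ℂ) (RatFunc ℂ) b * (Z * ∏ t, fac (a t) 1) =
      algebraMap (Polynomial ℂ) (RatFunc ℂ) P := by
  classical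
  obtain ⟨t0⟩ := (inferInstance : Nonempty τ)
  obtain ⟨b', e, h2⟩ := Pool.Agent.R852.PP.functionalEq_strong a h f hh hf t0 (ha t0).ne' b hb
  obtain ⟨P, hP⟩ := Pool.Agent.Y230.PL.plane_q2 _ b' h2 Z hZ
  obtain ⟨Q, hQ⟩ := phiA_fac a ha
  refine ⟨P * Q, ?_⟩
  rw [e, map_mul, map_mul, ← hP, ← hQ]
  ring

end Pool.Agent.R852.TP
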